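import Pool.Agent.Helper30.UB.St
import Pool.Agent.Helper62.FC.M_DKR
import Pool.Agent.Helper11.FC.M_CNV
import Pool.Agent.Helper48.FC.M_TAU
import Pool.Agent.Helper48.FC.M_PTS
import Pool.Agent.Helper24.FC.M_EXF
import Pool.Agent.Helper53.FC.M_IRB
import Pool.Agent.Helper29.UB.M_DKE
import Pool.Agent.Helper47.UB.M_DKS
import Pool.Agent.Helper48.UB.M_DKT
import Pool.Agent.Helper99.UB.M_LCM
import Pool.Agent.Helper1.UB.M_CNT
import Pool.Agent.Helper74.UB.M_ONE
import Pool.Agent.Helper22.UB.M_EUP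
import Pool.Agent.Helper2.UB.M_SAV
import Pool.Agent.Helper41.UB.M_SMO
import Pool.Agent.Helper31.UB.M_EXC
import Pool.Agent.Helper77.UB.M_DIC
import Pool.Agent.Helper11.UB.M_CON
import Pool.Agent.Helper12.UB.M_MAJ
import Pool.Agent.Helper97.UB.M_FUB

/-!
# Project UB: assembly
-/

set_option autoImplicit false

namespace Pool.Agent.Helper30.UB

open Pool.Agent.Helper15.FC

theorem pDKR : StDKR := Pool.Agent.Helper62.FC.hDKR

theorem pCNV : StCNV := Pool.Agent.Helper11.FC.hCNV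

theorem pTAU : StTAU := Pool.Agent.Helper48.FC.hTAU

theorem pIRB : StIRB := Pool.Agent.Helper53.FC.hIRB Pool.Agent.Helper48.FC.hPTS Pool.Agent.Helper24.FC.hEXF

theorem pDKE : StDKE := Pool.Agent.Helper29.UB.hDKE pDKR pCNV

theorem pDKS : StDKS := Pool.Agent.Helper47.UB.hDKS pDKR

theorem pDKT : StDKT := Pool.Agent.Helper48.UB.hDKT pDKR pDKS

theorem pLCM : StLCM := Pool.Agent.Helper99.UB.hLCM

theorem pCNT : Pool.Agent.Helper30.UB.StCNT := Pool.Agent.Helper1.UB.hCNT pLCM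

theorem pONE : StONE := Pool.Agent.Helper74.UB.hONE pDKE pDKS pDKT pLCM

theorem pEUP : StEUP := Pool.Agent.Helper22.UB.hEUP

theorem pSAV : StSAV := Pool.Agent.Helper2.UB.hSAV pEUP pIRB

theorem pSMO : StSMO := Pool.Agent.Helper41.UB.hSMO pEUP pIRB

theorem pEXC : StEXC := Pool.Agent.Helper31.UB.hEXC pSMO pTAU pDKR

theorem pDIC : StDIC := Pool.Agent.Helper77.UB.hDIC

theorem pCON : StCON := Pool.Agent.Helper11.UB.hCON

theorem pMAJ : Pool.Agent.Helper30.UB.StMAJ := Pool.Agent.Helper12.UB.hMAJ pDKT pLCM pONE pSAV pDIC pCON pDKS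

theorem pFUB : StFUB := Pool.Agent.Helper97.UB.hFUB pMAJ pEXC pCNT

end Pool.Agent.Helper30.UB
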