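import Pool.Agent.Helper15.FC.St2

/-!
# Project UB (MP_16cbc0_nt): an upper bound of the right order for every shift

THEOREM (`StFUB`). For `k, l ≥ 1` there is `C` such that for every finite field `F` (`q` elements) and `h ≠ 0`, for all large `n`,
`∑_{f ∈ M_n} d_k(f) d_l(f + h) ≤ C (∑_{g | h} d_k(g) d_l(g) / |g|) q ^ n n ^ (k + l - 2)`.
Statements of the modules, with proofs. No sieve is used: `d_k` is majorised by short divisor sums.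

Notation: `|f| = q ^ (deg f)`, `Z = log n / log q` (so `q ^ Z = n`), `nf f` the multiset of the monic prime factors, `DD v w f` the degree of the part
of `f` with prime factors of degree in `(v, w]`. Proved facts which may be imported (in `Pool/Agent/Helper15/FC/All.lean`): `gDKR : StDKR` (recursion of `dk`), `gCNV : StCNV`, `gDKM : StDKM`, `gTAU : StTAU`, `gIRB : StIRB`.
-/

set_option autoImplicit false

open Polynomial

noncomputable section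

namespace Pool.Agent.Helper30.UB

open Finset
open Pool.Agent.Helper15.FC

open scoped Classical in
/-- the monic prime factors, with multiplicity -/
def nf {F : Type} [Field F] (f : F[X]) : Multiset F[X] := UniqueFactorizationMonoid.normalizedFactors f

open scoped Classical in
/-- the degree of the part of `f` with prime factors of degree in `(v, w]` -/
def DD {F : Type} [Field F] (v w : ℝ) (f : F[X]) : ℕ :=
  (((nf f).filter (fun p => v < (p.natDegree : ℝ) ∧ (p.natDegree : ℝ) ≤ w)).map natDegree).sum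

/-- monic with `K` prime factors, all of degree in `(v, w]` -/
def PP {F : Type} [Field F] (v w : ℝ) (K : ℕ) (P : F[X]) : Prop :=
  P.Monic ∧ Multiset.card (nf P) = K ∧ ∀ p ∈ nf P, v < (p.natDegree : ℝ) ∧ (p.natDegree : ℝ) ≤ w

/-- `log n / log q` -/
def Zn (F : Type) [Fintype F] (n : ℕ) : ℝ := Real.log n / Real.log (qr F)

open scoped Classical in
/-- monic polynomials of degree `≤ m` -/
def Ml (F : Type) [Field F] [Fintype F] (m : ℕ) : Finset F[X] := (range (m + 1)).biUnion (fun i => Mn F i)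

open scoped Classical in
/-- the monic least common multiple -/
def lc {F : Type} [Field F] (U P : F[X]) : F[X] := normalize (EuclideanDomain.lcm U P)

open scoped Classical in
/-- the truncated divisor function -/
def Tk {F : Type} [Field F] [Fintype F] (k L : ℕ) (f : F[X]) : ℝ :=
  ∑ g ∈ (Dv f).filter (fun g => g.natDegree ≤ L), (dk (k - 1) g : ℝ)

/-! ## A. Divisor functions -/

/-- (DKE, assume `hR : StDKR`, `hC : StCNV`.) PROOF. Induction on `k`: `∑_{f ∈ M_n} d_{k+1}(f) = ∑_{i ≤ n} q ^ i ∑_{h ∈ M_{n-i}} d_k(h)` (DKR, CNV with `a = 1`, `b = d_k`, cast to ℂ; `card_Mn`), and `∑_{j ≤ n} C(j + k - 1, j) = C(n + k, n)` (for `k = 0` only `j = 0` counts; natural subtraction is right there too).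
Compare the proof of `StDKB` (`Pool.Agent.Helper95.FC.hDKB`). -/
def StDKE : Prop := ∀ (F : Type) [Field F] [Fintype F] (k n : ℕ),
  ∑ f ∈ Mn F n, dk k f = Fintype.card F ^ n * Nat.choose (n + k - 1) n

/-- (DKS, assume `hR : StDKR`.) PROOF. (1) Every factorization `f g = ∏ c_i` is `c_i = a_i b_i` with `∏ a_i = f`, `∏ b_i = g`, all monic (`F[X]` is a decomposition monoid: `a_1 = gcd(f, c_1)`, then `f / a_1` divides `∏_{i > 1} c_i` ...; induction on `k`; normalise), so the map from pairs of factorizations is onto. (For an induction with DKR: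
`d_{k+1}(f g) = ∑_{e | f g} d_k(f g / e)`, every `e | f g` is `a b` with `a | f`, `b | g`, so the sum is at most `∑_{a | f, b | g} d_k((f / a)(g / b))`.) (2) `d_k(p) = k`: DKR, `Dv p = {1, p}`. (3) From (1), (2) by induction on the number of prime factors. -/
def StDKS : Prop := ∀ (F : Type) [Field F] [Fintype F] (k : ℕ), (∀ f g : F[X], f.Monic → g.Monic → dk k (f * g) ≤ dk k f * dk k g) ∧
  ∀ f : F[X], f.Monic → dk k f ≤ k ^ Multiset.card (nf f)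

/-- (DKT, assume `hR : StDKR`, `hS : StDKS`.) PROOF. (1) DKR with the involution `g ↦ f / g` of `Dv f`. (2) `f = s r`, `s` the product of the prime factors of degree `≤ z`, of degree `DD 0 z f ≤ L` (all prime factors have degree `≥ 1`), `r` has all prime factors of degree `> z`, so at most `n / z` of them. DKS: `d_k(f) ≤ d_k(s) k ^ (n / z)`, and by (1)
`d_k(s) = ∑_{g | s} d_{k-1}(g) ≤ Tk k L f` (`g | s | f`, `deg g ≤ deg s ≤ L`). -/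
def StDKT : Prop := ∀ (F : Type) [Field F] [Fintype F], (∀ (k : ℕ) (f : F[X]), f.Monic → dk (k + 1) f = ∑ g ∈ Dv f, dk k g) ∧
  ∀ (k n L : ℕ) (z : ℝ) (f : F[X]), 1 ≤ k → 0 < z → f ∈ Mn F n → DD 0 z f ≤ L → (dk k f : ℝ) ≤ (k : ℝ) ^ ((n : ℝ) / z) * Tk k L f

/-- (LCM, no hypotheses.) PROOF. `EuclideanDomain.lcm`, `EuclideanDomain.gcd`, `normalize`; `G = normalize (gcd U P)`; `gcd U P * lcm U P` and `U * P` are associated (equal), compare degrees. -/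
def StLCM : Prop := ∀ (F : Type) [Field F] (U P : F[X]), U.Monic → P.Monic → (lc U P).Monic ∧ (∀ A : F[X], lc U P ∣ A ↔ U ∣ A ∧ P ∣ A) ∧
  ∃ G : F[X], G.Monic ∧ G ∣ U ∧ G ∣ P ∧ (lc U P).natDegree + G.natDegree = U.natDegree + P.natDegree

open scoped Classical in
/-- (CNT, assume `hL : StLCM`.) PROOF. If the set is not empty, `G` (monic gcd of `A` and `B`) divides `h = (f + h) - f`, and two elements `f, f'` of the set satisfy `lc A B ∣ f - f'`. With `M = deg (lc A B) ≤ n`: the elements of `M_n` in a fixed class modulo `lc A B` are at most `q ^ (n - M)` (`f ↦ (f - f_0) / lc A B` is injective into the polynomials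
of degree `< n - M` (`Lw F (n - M)`, `card_Lw`); if `n = M` then `f = f_0`, as `deg (f - f_0) < n`), and `q ^ (n - M) = |G| q ^ n / (|A| |B|)` is the summand for `g = G`. -/
def StCNT : Prop := ∀ (F : Type) [Field F] [Fintype F] (n : ℕ) (A B h : F[X]), A.Monic → B.Monic → h ≠ 0 → A.natDegree + B.natDegree ≤ n →
  (Nat.card {f : F[X] // f ∈ Mn F n ∧ A ∣ f ∧ B ∣ f + h} : ℝ) ≤
    ∑ g ∈ Dv h, if g ∣ A ∧ g ∣ B then qr F ^ g.natDegree * qr F ^ n / (qr F ^ A.natDegree * qr F ^ B.natDegree) else 0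

open scoped Classical in
/-- (ONE, assume `hE : StDKE`, `hS : StDKS`, `hT : StDKT`, `hL : StLCM`.) PROOF. `U = g U'`, `lc U P = g lc U' P` up to degree (`g` is prime to `P`: `deg (lc U P) = deg U + deg P - deg gcd(U, P)`, `gcd(g U', P) = gcd(U', P)`), `d_k(U) ≤ d_k(g) d_k(U')`. `1 / |lc U' P| = |G| / (|U'| |P|)`, `G` the monic gcd of `U'` and `P`, at most the sum over ALL `G ∈ Dv P` with `G | U'`;
`U' = G V`, `d_k(U') ≤ d_k(G) d_k(V)`. So the sum is at most `(d_k(g) / |g|) (1 / |P|) (∑_{G ∈ Dv P} d_k(G)) ∑_{V ∈ Ml L} d_k(V) / |V|`, the third factor is `d_{k+1}(P)` (DKT) and the last is `∑_{i ≤ L} C(i + k - 1, i) = C(L + k, L) ≤ (L + 1) ^ k` (DKE). -/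
def StONE : Prop := ∀ (F : Type) [Field F] [Fintype F] (k L : ℕ) (P g : F[X]), P.Monic → g.Monic → IsCoprime g P →
  ∑ U ∈ (Ml F L).filter (fun U => g ∣ U), (dk k U : ℝ) / qr F ^ (lc U P).natDegree ≤
    (dk k g : ℝ) * (dk (k + 1) P : ℝ) * ((L : ℝ) + 1) ^ k / (qr F ^ g.natDegree * qr F ^ P.natDegree)

/-! ## B. Euler products, rare events -/

/-- (EUP, no hypotheses.) PROOF. Induction on `S`: for `p₀ ∈ S` write `P = p₀ ^ e P'`; the `P'` have all prime factors in `S \ {p₀}`, so for fixed `e` the sum over `P ∈ 𝒫` with this `e` is at most `x(p₀) ^ e` times the product over `S \ {p₀}` (the map `P ↦ P'` is injective for fixed `e`), and `∑_e x ^ e = 1 / (1 - x) ≤ 1 + 4 x` for `0 ≤ x ≤ 3/4`. -/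
def StEUP : Prop := ∀ (F : Type) [Field F] [Fintype F] (S : Finset F[X]) (x : F[X] → ℝ),
  (∀ p ∈ S, p.Monic ∧ Irreducible p ∧ 0 ≤ x p ∧ x p ≤ 3 / 4) → ∀ Q : Finset F[X], (∀ P ∈ Q, P.Monic ∧ ∀ p ∈ nf P, p ∈ S) →
    ∑ P ∈ Q, ((nf P).map x).prod ≤ ∏ p ∈ S, (1 + 4 * x p)

/-- (SAV, assume `hE : StEUP`, `hI : StIRB`.) PROOF. EUP with `S` = the monic irreducible polynomials of degree in `(v, w]`, `x p = K / |p| ≤ 1 / 2` (`|p| ≥ q ^ v ≥ 2 K`): `K ^ K ∑_{P ∈ Q} 1 / |P| = ∑ ∏ (K / |p|) ≤ ∏ (1 + 4 K / |p|) ≤ exp(4 K σ)`, `σ = ∑_{v < d ≤ w} |Ir_d| / q ^ d ≤ ∑_{v < d ≤ w} 1 / d ≤ (w - v + 1) / v ≤ 2`. -/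
def StSAV : Prop := ∀ (F : Type) [Field F] [Fintype F] (v w : ℝ) (K : ℕ), 1 ≤ K → 1 ≤ v → v ≤ w → w ≤ 2 * v → 2 * (K : ℝ) ≤ qr F ^ v →
  ∀ Q : Finset F[X], (∀ P ∈ Q, PP v w K P) → ∑ P ∈ Q, 1 / qr F ^ P.natDegree ≤ (Real.exp 8 / K) ^ K

open scoped Classical in
/-- (SMO, assume `hE : StEUP`, `hI : StIRB`.) PROOF. `Z = Zn F n`. For such `f` the `Z`-smooth part `s` (product of the prime factors of degree `≤ Z`) has degree `≥ n / 16` and divides `f`; for given `s` there are `q ^ (n - deg s)` such `f ∈ M_n`. `q ^ (n - deg s) ≤ q ^ n q ^ (- n / 32) q ^ (- deg s / 2)`. EUP with `S` = all monic irreducible polynomials of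
degree `≤ Z`, `x p = |p| ^ (- 1/2) ≤ 2 ^ (- 1/2) ≤ 3/4`: `∑_s |s| ^ (- 1/2) ≤ exp(4 ∑_{d ≤ Z} |Ir_d| q ^ (- d/2)) ≤ exp(4 ∑_{d ≤ Z} q ^ (d/2)) ≤ exp(14 √n)` (`∑_{d ≤ Z} q ^ (d/2) ≤ q ^ (Z/2) / (1 - q ^ (- 1/2)) ≤ 3.5 √n`). -/
def StSMO : Prop := ∀ (F : Type) [Field F] [Fintype F] (n : ℕ), 1 ≤ n →
  (((Mn F n).filter (fun f => (n : ℝ) / 16 ≤ (DD 0 (Zn F n) f : ℝ))).card : ℝ) ≤ qr F ^ (31 * (n : ℝ) / 32) * Real.exp (14 * √(n : ℝ))

open scoped Classical in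
/-- (EXC, assume `hS : StSMO`, `hT : StTAU`, `hR : StDKR`.) PROOF. `d_{k+1}(f) = ∑_{g | f} d_k(f / g) ≤ |Dv f| max`, so `d_k(f) ≤ |Dv f| ^ k ≤ C q ^ (n / 200)` for `f ∈ M_n` (TAU with `ε = 1 / (200 k)`; divisors of divisors are divisors). For `n > deg h` the map `f ↦ f + h` is a bijection of `M_n`. So both sums are at most
`C q ^ (31 n / 32) exp(14 √n) q ^ (n / 100) ≤ q ^ n` for large `n`. -/
def StEXC : Prop := ∀ (F : Type) [Field F] [Fintype F] (k l : ℕ) (h : F[X]), h ≠ 0 → ∃ n₀ : ℕ, ∀ n : ℕ, n₀ ≤ n →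
  ∑ f ∈ (Mn F n).filter (fun f => (n : ℝ) / 16 ≤ (DD 0 (Zn F n) f : ℝ)), (dk k f : ℝ) * (dk l (f + h) : ℝ) ≤ qr F ^ n ∧
  ∑ f ∈ (Mn F n).filter (fun f => (n : ℝ) / 16 ≤ (DD 0 (Zn F n) (f + h) : ℝ)), (dk k f : ℝ) * (dk l (f + h) : ℝ) ≤ qr F ^ n

/-- (DIC, no hypotheses.) PROOF. `Z = Zn F n`, `L = n / 4` (natural division). Let `i` be such that `DD 0 (κ n / 2 ^ i) f ≤ L` for the first time, starting with `i = 0` (it exists: `DD 0 Z f < n / 16 ≤ L` for `n ≥ 16`, monotone in `z`). If it is `0` the first alternative holds. Otherwise let `z = κ n / 2 ^ (i - 1)`: `DD 0 z f > L`, so `DD 0 z f > n / 4`,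
`z > Z`, and `DD 0 (z / 2) f ≤ L`. `DD Z z f = DD 0 z f - DD 0 Z f > 3 n / 16`. The ranges `(max Z (z / 2 ^ (j + 1)), z / 2 ^ j]`, `j ≥ 0`, `z / 2 ^ j > Z`, cover `(Z, z]`, and `∑_j (n / 32)(3 / 4) ^ j = n / 8`, so for some `j` the prime factors of `f` in the range `j` have total degree `> (n / 32)(3 / 4) ^ j`; each has degree `≤ z / 2 ^ j`, so their number is
`> (n / (32 z)) (3 / 2) ^ j`, hence at least `K = ⌈..⌉`; take `P` the product of `K` of them (a submultiset of `nf f`; a product of monic irreducibles has them as its `nf`). `deg P ≤ K z / 2 ^ j ≤ (n / 32)(3 / 4) ^ j + z / 2 ^ j ≤ n / 32 + n / 64`. -/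
def StDIC : Prop := ∀ (F : Type) [Field F] [Fintype F] (n : ℕ) (κ : ℝ) (f : F[X]), 16 ≤ n → 0 < κ → κ ≤ 1 / 64 → 1 ≤ Zn F n → f ∈ Mn F n →
  (DD 0 (Zn F n) f : ℝ) < (n : ℝ) / 16 →
  DD 0 (κ * n) f ≤ n / 4 ∨
  ∃ i j : ℕ, Zn F n < κ * n / 2 ^ i / 2 ^ j ∧ DD 0 (κ * n / 2 ^ i / 2) f ≤ n / 4 ∧
    ∃ P : F[X], P ∣ f ∧ 16 * P.natDegree ≤ n ∧
      PP (max (Zn F n) (κ * n / 2 ^ i / 2 ^ (j + 1))) (κ * n / 2 ^ i / 2 ^ j) ⌈(2 ^ i / (32 * κ)) * (3 / 2 : ℝ) ^ j⌉₊ P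

/-- (CON, no hypotheses.) PROOF. `κ = 1 / (32 e ^ 9 k ^ 65)`. Let `M = 2 ^ i / (32 κ)`, `K = ⌈M (3/2) ^ j⌉ ≥ M ≥ e ^ 9 k ^ 65`. Then `k ^ (2 ^ (i + 1) / κ) = k ^ (64 M)`, and `K log(K / (k e ^ 8)) ≥ K (1 + 64 log k) ≥ K + 64 M log k`. So the summand is at most `e ^ (- K) ≤ 1 / K ≤ 2 ^ (- i) (2/3) ^ j`, and the sum over all `i, j` is at most `2 · 3`. -/
def StCON : Prop := ∀ k : ℕ, 1 ≤ k → ∃ κ : ℝ, 0 < κ ∧ κ ≤ 1 / 64 ∧ ∀ I J : ℕ,
  ∑ i ∈ range I, ∑ j ∈ range J, (k : ℝ) ^ ((2 : ℝ) ^ (i + 1) / κ) *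
    ((k : ℝ) * Real.exp 8 / ⌈(2 ^ i / (32 * κ)) * (3 / 2 : ℝ) ^ j⌉₊) ^ ⌈(2 ^ i / (32 * κ)) * (3 / 2 : ℝ) ^ j⌉₊ ≤ 6

/-! ## C. The majorant and the end -/

open scoped Classical in
/-- (MAJ, assume `hT : StDKT`, `hL : StLCM`, `hO : StONE`, `hS : StSAV`, `hD : StDIC`, `hC : StCON`, `hK : StDKS`.) PROOF. `κ` from CON, `C = k ^ (1/κ) + 6`. `L = n / 4`; `I = J = n` (if `Z < κ n / 2 ^ (i + j)`, `Z ≥ 1`, then `i, j < n`). For `i, j < n` with `Z < κ n / 2 ^ (i + j)` let `v = max Z (κ n / 2 ^ (i + j + 1))`, `w = κ n / 2 ^ (i + j)`, `K = ⌈..⌉` as in DIC, and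
`Q_ij` = the monic `P` of degree `≤ n / 16` with `PP v w K P`. `w A = [A.Monic, deg A ≤ L] k ^ (1/κ) d_{k-1}(A) + ∑_{i,j} k ^ (2 ^ (i+1) / κ) ∑_{U ∈ Ml L} ∑_{P ∈ Q_ij} [lc U P = A] d_{k-1}(U)`. Then `A` is monic of degree `≤ n / 4 + n / 16`. Majorant: DIC and DKT (with `z = κ n`, resp. `z = κ n / 2 ^ (i + 1)`, `n / z = 2 ^ (i+1) / κ`): `d_k(f) ≤ k ^ (n/z) Tk k L f`, and in the
second case `1 ≤ ∑_{P ∈ Q_ij, P | f} 1`, `U | f` and `P | f` iff `lc U P | f`. Sum: let `g` be monic with `deg g ≤ Z`. `g` is prime to every `P ∈ Q_ij` (its prime factors have degree `> Z`), so `g | lc U P` implies `g | U P` (LCM), `g | U`. First part: ONE with `P = 1` (`lc U 1 = U` for monic `U`). Second part: ONE, at most `k ^ (2 ^ (i+1) / κ) ∑_{P ∈ Q_ij} d_{k-1}(g) d_k(P) (L + 1) ^ (k-1) / (|g| |P|)`,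
`d_k(P) ≤ k ^ K` (DKS), `∑_P 1 / |P| ≤ (e ^ 8 / K) ^ K` (SAV: `v ≥ Z ≥ 1`, `v ≤ w ≤ 2 v`, `q ^ v ≥ q ^ Z = n ≥ 2 K` because `(n / (32 w')) .. `: `K ≤ (2 ^ i / (32 κ)) (3/2) ^ j + 1 ≤ n / 32 + 1`, as `2 ^ (i + j) < κ n`). CON. `d_{k-1}(g) ≤ d_k(g)` (DKT, `g ∈ Dv g`), `(L + 1) ^ (k-1) ≤ n ^ (k-1)`. `n₀`: `Z ≥ 1` iff `n ≥ q`, and `n ≥ 16`. -/
def StMAJ : Prop := ∀ k : ℕ, 1 ≤ k → ∃ C : ℝ, 0 < C ∧ ∀ (F : Type) [Field F] [Fintype F], ∃ n₀ : ℕ, ∀ n : ℕ, n₀ ≤ n →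
  ∃ w : F[X] → ℝ, (∀ A, 0 ≤ w A) ∧ (∀ A, w A ≠ 0 → A.Monic ∧ 2 * A.natDegree ≤ n) ∧
    (∀ g : F[X], g.Monic → (g.natDegree : ℝ) ≤ Zn F n →
      ∑ A ∈ (Ml F n).filter (fun A => g ∣ A), w A / qr F ^ A.natDegree ≤ C * ((dk k g : ℝ) / qr F ^ g.natDegree) * (n : ℝ) ^ (k - 1)) ∧
    ∀ f ∈ Mn F n, (DD 0 (Zn F n) f : ℝ) < (n : ℝ) / 16 → (dk k f : ℝ) ≤ ∑ A ∈ Dv f, w A

/-- (FUB, assume `hM : StMAJ`, `hE : StEXC`, `hN : StCNT`.) PROOF. `w`, `w'` the majorants for `k`, `l`. For `f ∈ M_n`, `n > deg h`, also `f + h ∈ M_n`. If neither `f` nor `f + h` is exceptional (`DD 0 Z .. ≥ n / 16`), `d_k(f) d_l(f + h) ≤ ∑_{A | f, B | f + h} w A w' B`; so these `f` contribute at most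
`∑_{A, B ∈ Ml n} w A w' B #{f ∈ M_n : A | f, B | f + h} ≤ ∑_{A, B} w A w' B ∑_{g ∈ Dv h, g | A, g | B} |g| q ^ n / (|A| |B|) = q ^ n ∑_{g ∈ Dv h} |g| (∑_{A ∈ Ml n, g | A} w A / |A|)(∑_{B ∈ Ml n, g | B} w' B / |B|)` (CNT; `deg A + deg B ≤ n` where the weights are not `0`)
`≤ C C' q ^ n n ^ (k-1) n ^ (l-1) ∑_{g ∈ Dv h} d_k(g) d_l(g) / |g|` as soon as `deg h ≤ Zn F n`. The exceptional `f` contribute at most `2 q ^ n` (EXC), and `∑_{g ∈ Dv h} .. ≥ 1` (`g = 1`, `d_k(1) = 1`). -/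
def StFUB : Prop := ∀ k l : ℕ, 1 ≤ k → 1 ≤ l → ∃ C : ℝ, 0 < C ∧ ∀ (F : Type) [Field F] [Fintype F] (h : F[X]), h ≠ 0 → ∃ n₀ : ℕ, ∀ n : ℕ, n₀ ≤ n →
  ((∑ f ∈ Mn F n, dk k f * dk l (f + h) : ℕ) : ℝ) ≤
    C * (∑ g ∈ Dv h, (dk k g : ℝ) * (dk l g : ℝ) / qr F ^ g.natDegree) * qr F ^ n * (n : ℝ) ^ (k + l - 2)

end Pool.Agent.Helper30.UB
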